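import Pool.Agent.helper95.T5.SpecE

set_option autoImplicit false

namespace Pool.Agent.T5

open Finset NumberField Pool.Agent.helper3.FT Pool.Agent.helper47.RA

/-- the pairs of the block prime to `q` -/
def TWA_W (N₁ K₁ q : ℕ) : Finset (ℕ × ℕ) := (pairs N₁ K₁ 1).filter (fun p => ¬ q ∣ p.1 * p.2)

theorem TWA_W_mem {N₁ K₁ q : ℕ} {p : ℕ × ℕ} (hp : p ∈ TWA_W N₁ K₁ q) :
    1 ≤ p.1 ∧ 1 ≤ p.2 ∧ Nat.Coprime p.1 p.2 ∧ ¬ q ∣ p.1 * p.2 := by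
  simp only [TWA_W, pairs, mem_filter, mem_product, mem_Icc] at hp
  obtain ⟨⟨⟨⟨h1, -⟩, ⟨h2, -⟩⟩, -, -, h3, -⟩, h4⟩ := hp
  exact ⟨h1, h2, h3, h4⟩

theorem TWA_W_card (N₁ K₁ q : ℕ) : (TWA_W N₁ K₁ q).card ≤ N₁ * K₁ := by
  refine (card_le_card (filter_subset _ _)).trans ?_
  refine (card_le_card (filter_subset _ _)).trans ?_
  rw [card_product, Nat.card_Icc, Nat.card_Icc]
  simp

/-- residues for one pair -/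
theorem TWA_one (hRE1 : RE1_stmt) (hRE2 : RE2_stmt) (q : ℕ) (hq : q.Prime) (p : ℕ × ℕ)
    (h3 : Nat.Coprime p.1 p.2) (h4 : ¬ q ∣ p.1 * p.2) :
    ∃ (ρ : ℤ × ℤ × ℤ) (c₀ : ℤ), ResG p.1 p.2 q 1 1 1 ρ.1 ρ.2.1 ρ.2.2 ∧
      ∀ m g z : ℤ, IsCoprime ((p.2 : ℤ)) (q : ℤ) ∧
        (((p.1 : ℤ) ^ 3 ∣ q * z * (p.2 : ℤ) ^ 4 + q * m * g * (p.2 : ℤ) ^ 2 - g ^ 2 * (p.1 : ℤ) ^ 2 ∧
          (p.2 : ℤ) ∣ z * (p.1 : ℤ) ^ 2 - q * m ^ 2) →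
        ((p.1 ^ 3 * p.2 * 1 : ℕ) : ℤ) ∣ z - (ρ.1 * m ^ 2 + ρ.2.1 * m * g + ρ.2.2 * g ^ 2 + c₀)) := by
  have hcop : IsCoprime (p.1 : ℤ) (p.2 : ℤ) := Nat.isCoprime_iff_coprime.mpr h3
  have hqn : IsCoprime (q : ℤ) (p.1 : ℤ) := by
    apply Nat.isCoprime_iff_coprime.mpr
    exact (Nat.Prime.coprime_iff_not_dvd hq).mpr fun h => h4 (h.mul_right _)
  have hqk : IsCoprime (q : ℤ) (p.2 : ℤ) := by
    apply Nat.isCoprime_iff_coprime.mpr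
    exact (Nat.Prime.coprime_iff_not_dvd hq).mpr fun h => h4 (h.mul_left _)
  have e1 : IsCoprime ((p.1 : ℤ) * 1) ((p.2 : ℤ) * 1) := by rw [mul_one, mul_one]; exact hcop
  have e2 : IsCoprime (q : ℤ) ((p.1 : ℤ) * 1) := by rw [mul_one]; exact hqn
  have e3 : IsCoprime (1 : ℤ) ((p.2 : ℤ) * 1) := isCoprime_one_left
  obtain ⟨α, β, γ, hres⟩ := hRE1 p.1 p.2 q 1 1 1 e1 e2 e3
  obtain ⟨c₀, hc₀⟩ := hRE2 p.1 p.2 q 1 1 1 α β γ e1 e2 e3 hres 0 0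
  refine ⟨(α, β, γ), c₀, hres, fun m g z => ⟨hqk.symm, fun ⟨h1, h2⟩ => ?_⟩⟩
  have h5 := (hc₀ m g z).mpr ⟨by
    have : (q : ℤ) * z * (p.2 : ℤ) ^ 4 + q * m * g * (p.2 : ℤ) ^ 2 - 1 * g ^ 2 * (p.1 : ℤ) ^ 2 + (p.1 : ℤ) ^ 3 * 0
        = q * z * (p.2 : ℤ) ^ 4 + q * m * g * (p.2 : ℤ) ^ 2 - g ^ 2 * (p.1 : ℤ) ^ 2 := by ring
    rw [this, mul_one]; exact h1, by
    have : 1 * z * (p.1 : ℤ) ^ 2 - q * m ^ 2 - (p.2 : ℤ) * 0 = z * (p.1 : ℤ) ^ 2 - q * m ^ 2 := by ring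
    rw [this, mul_one]; exact h2⟩
  have e4 : ((p.1 ^ 3 * p.2 * 1 : ℕ) : ℤ) = ((p.1 : ℤ) ^ 3 * 1) * ((p.2 : ℤ) * 1) := by
    push_cast; ring
  rw [e4]
  exact h5

theorem TWA_cnt (hRE1 : RE1_stmt) (hRE2 : RE2_stmt) (q N₁ K₁ : ℕ) (hq : q.Prime) (A B V : ℕ) :
    ∃ (ρ : ℕ × ℕ → ℤ × ℤ × ℤ) (c₀ : ℕ × ℕ → ℤ),
      Resid (TWA_W N₁ K₁ q) q 1 1 (fun _ => 1) (fun _ => 1) ρ ∧
      ∀ F' : Finset Tpl, (∀ t ∈ F', IsT t ∧ t.1 ∈ TWA_W N₁ K₁ q ∧ (q : ℤ) ∣ t.2.2.2 ∧ (q : ℤ) ∣ t.2.1 ∧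
        |t.2.1| ≤ q * A ∧ |t.2.2.1| ≤ B ∧ 0 ≤ t.2.2.2 ∧ t.2.2.2 < q * V) →
      F'.card ≤ ∑ p ∈ TWA_W N₁ K₁ q, (fibG (-(A : ℤ)) (-(B : ℤ)) 0 (2 * A + 1) (2 * B + 1) V 1 (p.1 ^ 3 * p.2 * 1)
        0 0 (ρ p).1 (ρ p).2.1 (ρ p).2.2 (c₀ p)).card := by
  classical
  have hqz : (0 : ℤ) < (q : ℤ) := by exact_mod_cast hq.pos
  have hex : ∀ p : ℕ × ℕ, ∃ (ρ : ℤ × ℤ × ℤ) (c₀ : ℤ), p ∈ TWA_W N₁ K₁ q → (ResG p.1 p.2 q 1 1 1 ρ.1 ρ.2.1 ρ.2.2 ∧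
      ∀ m g z : ℤ, IsCoprime ((p.2 : ℤ)) (q : ℤ) ∧
        (((p.1 : ℤ) ^ 3 ∣ q * z * (p.2 : ℤ) ^ 4 + q * m * g * (p.2 : ℤ) ^ 2 - g ^ 2 * (p.1 : ℤ) ^ 2 ∧
          (p.2 : ℤ) ∣ z * (p.1 : ℤ) ^ 2 - q * m ^ 2) →
        ((p.1 ^ 3 * p.2 * 1 : ℕ) : ℤ) ∣ z - (ρ.1 * m ^ 2 + ρ.2.1 * m * g + ρ.2.2 * g ^ 2 + c₀))) := by
    intro p
    by_cases hp : p ∈ TWA_W N₁ K₁ q
    · obtain ⟨h1, h2, h3, h4⟩ := TWA_W_mem hp
      obtain ⟨ρ, c₀, h5⟩ := TWA_one hRE1 hRE2 q hq p h3 h4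
      exact ⟨ρ, c₀, fun _ => h5⟩
    · exact ⟨0, 0, fun h => absurd h hp⟩
  choose ρ c₀ hρ using hex
  refine ⟨ρ, c₀, ?_, ?_⟩
  · intro p hp
    obtain ⟨h1, h2, h3, h4⟩ := TWA_W_mem hp
    refine ⟨rfl, by simpa using h3, ?_⟩
    have := (hρ p hp).1
    simpa using this
  · intro F' hF'
    rw [card_eq_sum_card_fiberwise (f := fun t : Tpl => t.1) (t := TWA_W N₁ K₁ q) (by
      intro t ht
      exact (hF' t ht).2.1)]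
    refine sum_le_sum fun p hp => ?_
    apply card_le_card_of_injOn (fun t : Tpl => (t.2.1 / (q : ℤ), t.2.2.1, t.2.2.2 / (q : ℤ)))
    · intro t ht
      have ht' : t ∈ F' ∧ t.1 = p := by simpa using ht
      obtain ⟨htF, htp⟩ := ht'
      obtain ⟨h1, h2, ⟨z, hz⟩, ⟨m, hm⟩, h5, h6, h7, h8⟩ := hF' t htF
      have hdz : t.2.2.2 / (q : ℤ) = z := by rw [hz]; exact Int.mul_ediv_cancel_left _ hqz.ne'
      have hdm : t.2.1 / (q : ℤ) = m := by rw [hm]; exact Int.mul_ediv_cancel_left _ hqz.ne'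
      have hmA : |m| ≤ A := by
        rw [hm, abs_mul, abs_of_pos hqz] at h5
        exact le_of_mul_le_mul_left h5 hqz
      have hz0 : 0 ≤ z := by
        rw [hz] at h7
        exact nonneg_of_mul_nonneg_right h7 hqz
      have hzV : z < V := by
        rw [hz] at h8
        exact lt_of_mul_lt_mul_left h8 hqz.le
      obtain ⟨hkq, hdiv⟩ := (hρ p hp).2 m t.2.2.1 z
      have hc1 := h1.c1
      have hc2 := h1.c2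
      rw [htp, hz, hm] at hc1
      rw [htp, hz, hm] at hc2
      have hfin := hdiv ⟨by
        have : (q : ℤ) * z * (p.2 : ℤ) ^ 4 + q * m * t.2.2.1 * (p.2 : ℤ) ^ 2 - t.2.2.1 ^ 2 * (p.1 : ℤ) ^ 2
          = (q : ℤ) * z * (p.2 : ℤ) ^ 4 + q * m * t.2.2.1 * (p.2 : ℤ) ^ 2 - t.2.2.1 ^ 2 * (p.1 : ℤ) ^ 2 := rfl
        exact hc1, by
        have h9 : (p.2 : ℤ) ∣ (q : ℤ) * (z * (p.1 : ℤ) ^ 2 - q * m ^ 2) := by
          have : (q : ℤ) * (z * (p.1 : ℤ) ^ 2 - q * m ^ 2) = -((q * m) ^ 2 - q * z * (p.1 : ℤ) ^ 2) := by ring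
          rw [this]
          exact (dvd_neg).mpr hc2
        exact hkq.dvd_of_dvd_mul_left h9⟩
      simp only [coe_filter, fibG, mem_filter, mem_product, mem_Ico, Set.mem_ofPred_eq, hdz, hdm]
      rw [abs_le] at hmA h6
      refine ⟨⟨⟨⟨by linarith [hmA.1], by push_cast; linarith [hmA.2]⟩, ?_⟩, ⟨⟨by linarith [h6.1], by push_cast; linarith [h6.2]⟩, ?_⟩,
        ⟨hz0, by linarith⟩⟩, hfin⟩
      · simp
      · simp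
    · intro t ht t' ht' htt
      have ht1 : t ∈ F' ∧ t.1 = p := by simpa using ht
      have ht2 : t' ∈ F' ∧ t'.1 = p := by simpa using ht'
      obtain ⟨-, -, ⟨z, hz⟩, ⟨m, hm⟩, -⟩ := hF' t ht1.1
      obtain ⟨-, -, ⟨z', hz'⟩, ⟨m', hm'⟩, -⟩ := hF' t' ht2.1
      have e1 : t.2.2.2 / (q : ℤ) = z := by rw [hz]; exact Int.mul_ediv_cancel_left _ hqz.ne'
      have e2 : t.2.1 / (q : ℤ) = m := by rw [hm]; exact Int.mul_ediv_cancel_left _ hqz.ne'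
      have e3 : t'.2.2.2 / (q : ℤ) = z' := by rw [hz']; exact Int.mul_ediv_cancel_left _ hqz.ne'
      have e4 : t'.2.1 / (q : ℤ) = m' := by rw [hm']; exact Int.mul_ediv_cancel_left _ hqz.ne'
      simp only [Prod.mk.injEq, e1, e2, e3, e4] at htt
      obtain ⟨h1, h2, h3⟩ := htt
      have g1 : t.1 = t'.1 := by rw [ht1.2, ht2.2]
      have g2 : t.2.1 = t'.2.1 := by rw [hm, hm', h1]
      have g3 : t.2.2.2 = t'.2.2.2 := by rw [hz, hz', h3]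
      exact Prod.ext g1 (Prod.ext g2 (Prod.ext h2 g3))

/-- powers of `u = N ^ (1 / 200)` -/
theorem TWA_pw (N : ℝ) (hN : 1 ≤ N) (j : ℕ) : (N ^ (1 / 200 : ℝ)) ^ j = N ^ ((j : ℝ) / 200) := by
  rw [← Real.rpow_natCast, ← Real.rpow_mul (by linarith)]
  congr 1
  ring

/-- the sizes, for `u = N ^ (1 / 200)` -/
theorem TWA_sz (δ N Y u : ℝ) (hδ : 0 < δ) (hδ1 : δ ≤ 1 / 10) (hN : 1 ≤ N) (hu : u = N ^ (1 / 200 : ℝ))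
    (hY1 : N ^ (0.39 : ℝ) ≤ Y) (hY2 : Y ≤ N ^ (1 / 2 - δ)) :
    1 ≤ u ∧ u ^ 78 ≤ Y ∧ N ^ (1 / 2 + δ / 100) / Y ≤ u ^ 23 ∧
    u ^ 28 ≤ sN N Y (N ^ (1 / 2 + δ / 100)) ∧ u ^ 28 ≤ sK N Y (N ^ (1 / 2 + δ / 100)) ∧
    u ^ 67 ≤ sM N Y (N ^ (1 / 2 + δ / 100)) ∧ u ^ 28 ≤ sG N Y (N ^ (1 / 2 + δ / 100)) ∧
    sN N Y (N ^ (1 / 2 + δ / 100)) ≤ N ∧ sK N Y (N ^ (1 / 2 + δ / 100)) ≤ N ∧
    sM N Y (N ^ (1 / 2 + δ / 100)) ≤ N ∧ sG N Y (N ^ (1 / 2 + δ / 100)) ≤ N ∧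
    u ^ 45 * Y ≤ sN N Y (N ^ (1 / 2 + δ / 100)) ^ 3 * sK N Y (N ^ (1 / 2 + δ / 100)) ∧
    sM N Y (N ^ (1 / 2 + δ / 100)) * sG N Y (N ^ (1 / 2 + δ / 100)) =
      N ^ (1 / 2 + δ / 100) * sN N Y (N ^ (1 / 2 + δ / 100)) ^ 2 := by
  have hN0 : 0 < N := by linarith
  have hpow := TWA_pw N hN
  rw [← hu] at hpow
  have hu1 : 1 ≤ u := by rw [hu]; exact Real.one_le_rpow hN (by norm_num)
  have hu0 : 0 < u := by linarith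
  set Y₂ : ℝ := N ^ (1 / 2 + δ / 100) with hY₂
  have hY₂0 : 0 < Y₂ := Real.rpow_pos_of_pos hN0 _
  have a1 : u ^ 78 ≤ Y := by
    rw [hpow 78]; refine le_trans (le_of_eq ?_) hY1; congr 1; norm_num
  have hY0 : 0 < Y := lt_of_lt_of_le (by positivity) a1
  have a2 : Y ≤ u ^ 100 := by
    rw [hpow 100]; refine hY2.trans ?_
    apply Real.rpow_le_rpow_of_exponent_le hN
    push_cast; linarith
  have a3 : u ^ 100 ≤ Y₂ := by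
    rw [hpow 100]
    apply Real.rpow_le_rpow_of_exponent_le hN
    push_cast; linarith
  have a4 : Y₂ ≤ u ^ 101 := by
    rw [hpow 101]
    apply Real.rpow_le_rpow_of_exponent_le hN
    push_cast; linarith
  have a5 : u ^ 200 = N := by rw [hpow 200]; norm_num
  have a6 : Y * Y₂ ≤ N := by
    calc Y * Y₂ ≤ N ^ (1 / 2 - δ) * N ^ (1 / 2 + δ / 100) := by gcongr
      _ = N ^ (1 / 2 - δ + (1 / 2 + δ / 100)) := (Real.rpow_add hN0 _ _).symm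
      _ ≤ N ^ (1 : ℝ) := Real.rpow_le_rpow_of_exponent_le hN (by linarith)
      _ = N := Real.rpow_one N
  -- square roots
  have hsN : √N = u ^ 100 := by
    rw [← a5, show u ^ 200 = (u ^ 100) ^ 2 by ring]; exact Real.sqrt_sq (by positivity)
  set y : ℝ := √Y with hy
  set w : ℝ := √Y₂ with hw
  have hy2 : y ^ 2 = Y := Real.sq_sqrt hY0.le
  have hw2 : w ^ 2 = Y₂ := Real.sq_sqrt hY₂0.le
  have hy0 : 0 < y := Real.sqrt_pos.mpr hY0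
  have hw0 : 0 < w := Real.sqrt_pos.mpr hY₂0
  have b1 : u ^ 39 ≤ y := Real.le_sqrt_of_sq_le (by rw [← pow_mul]; exact a1)
  have b2 : y ≤ u ^ 50 := by
    rw [hy]; apply Real.sqrt_le_iff.mpr ⟨by positivity, by rw [← pow_mul]; exact a2⟩
  have b3 : u ^ 50 ≤ w := Real.le_sqrt_of_sq_le (by rw [← pow_mul]; exact a3)
  have b4 : w ≤ u ^ 51 := by
    rw [hw]; apply Real.sqrt_le_iff.mpr ⟨by positivity, ?_⟩
    rw [← pow_mul]; exact a4.trans (pow_le_pow_right₀ hu1 (by norm_num))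
  have b5 : y * w ≤ u ^ 100 := by
    rw [hy, hw, ← Real.sqrt_mul hY0.le, ← hsN]
    exact Real.sqrt_le_sqrt a6
  have eN : sN N Y Y₂ = y ^ 2 * w / u ^ 100 := by
    rw [sN, hsN, ← hw, hy2]
  have eK : sK N Y Y₂ = y * w ^ 2 / u ^ 100 := by
    rw [sK, hsN, ← hy, hw2]
  have eM : sM N Y Y₂ = y ^ 3 * w / u ^ 100 := by
    rw [sM, hsN, ← hw, ← hy, ← hy2]; ring
  have eG : sG N Y Y₂ = y * w ^ 3 / u ^ 100 := by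
    rw [sG, hsN, ← hw, ← hy, ← hw2]; ring
  have hup : 0 < u ^ 100 := by positivity
  refine ⟨hu1, a1, ?_, ?_, ?_, ?_, ?_, ?_, ?_, ?_, ?_, ?_, ?_⟩
  · rw [div_le_iff₀ hY0]
    calc Y₂ ≤ u ^ 101 := a4
      _ = u ^ 23 * u ^ 78 := by ring
      _ ≤ u ^ 23 * Y := by gcongr
  · rw [eN, le_div_iff₀ hup]
    calc u ^ 28 * u ^ 100 = (u ^ 39) ^ 2 * u ^ 50 := by ring
      _ ≤ y ^ 2 * w := by gcongr
  · rw [eK, le_div_iff₀ hup]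
    calc u ^ 28 * u ^ 100 ≤ u ^ 39 * (u ^ 50) ^ 2 := by
          rw [← pow_mul, ← pow_add, ← pow_add]; exact pow_le_pow_right₀ hu1 (by norm_num)
      _ ≤ y * w ^ 2 := by gcongr
  · rw [eM, le_div_iff₀ hup]
    calc u ^ 67 * u ^ 100 = (u ^ 39) ^ 3 * u ^ 50 := by ring
      _ ≤ y ^ 3 * w := by gcongr
  · rw [eG, le_div_iff₀ hup]
    calc u ^ 28 * u ^ 100 ≤ u ^ 39 * (u ^ 50) ^ 3 := by
          rw [← pow_mul, ← pow_add, ← pow_add]; exact pow_le_pow_right₀ hu1 (by norm_num)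
      _ ≤ y * w ^ 3 := by gcongr
  · rw [eN, div_le_iff₀ hup, ← a5]
    calc y ^ 2 * w = y * (y * w) := by ring
      _ ≤ u ^ 50 * u ^ 100 := by gcongr
      _ ≤ u ^ 200 * u ^ 100 := by
          rw [← pow_add, ← pow_add]; exact pow_le_pow_right₀ hu1 (by norm_num)
  · rw [eK, div_le_iff₀ hup, ← a5]
    calc y * w ^ 2 = w * (y * w) := by ring
      _ ≤ u ^ 51 * u ^ 100 := by gcongr
      _ ≤ u ^ 200 * u ^ 100 := by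
          rw [← pow_add, ← pow_add]; exact pow_le_pow_right₀ hu1 (by norm_num)
  · rw [eM, div_le_iff₀ hup, ← a5]
    calc y ^ 3 * w = y ^ 2 * (y * w) := by ring
      _ ≤ (u ^ 50) ^ 2 * u ^ 100 := by gcongr
      _ ≤ u ^ 200 * u ^ 100 := by
          rw [← pow_mul, ← pow_add, ← pow_add]; exact pow_le_pow_right₀ hu1 (by norm_num)
  · rw [eG, div_le_iff₀ hup, ← a5]
    calc y * w ^ 3 = w ^ 2 * (y * w) := by ring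
      _ ≤ (u ^ 51) ^ 2 * u ^ 100 := by gcongr
      _ ≤ u ^ 200 * u ^ 100 := by
          rw [← pow_mul, ← pow_add, ← pow_add]; exact pow_le_pow_right₀ hu1 (by norm_num)
  · have e1 : sN N Y Y₂ ^ 3 * sK N Y Y₂ = y ^ 5 * w ^ 5 * y ^ 2 / u ^ 400 := by
      rw [eN, eK]; field_simp
    rw [e1, ← hy2, le_div_iff₀ (by positivity)]
    calc u ^ 45 * y ^ 2 * u ^ 400 = ((u ^ 39) ^ 5 * (u ^ 50) ^ 5) * y ^ 2 := by ring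
      _ ≤ (y ^ 5 * w ^ 5) * y ^ 2 := by gcongr
  · rw [eM, eG, eN, ← hw2]; field_simp

theorem TWA_relE (δ N Y Y₂ y : ℝ) (hN : 0 < N) (hY : 0 ≤ Y) (hY₂ : 0 ≤ Y₂) : 0 ≤ relE δ N Y Y₂ y := by
  unfold relE
  have : 0 ≤ Y * Y₂ / N := by positivity
  positivity

/-- a smaller `κ` -/
theorem TWA_cen {κ κ' N Y Y₂ : ℝ} {t : Tpl} (hk0 : 0 < κ) (hk : κ' ≤ κ) (hY : 0 ≤ Y) (hY₂ : 0 ≤ Y₂)
    (h : Cen κ N Y Y₂ t) : Cen κ' N Y Y₂ t := by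
  have hz : (0 : ℝ) ≤ t.2.2.2 := by linarith [h.z1]
  have hs1 : (0 : ℝ) ≤ (t.2.2.2 : ℝ) * √(lam t : ℝ) := by positivity
  have hl : 0 ≤ √(t.2.2.2 : ℝ) * (lam t : ℝ) :=
    mul_nonneg (Real.sqrt_nonneg _) ((mul_nonneg hk0.le hY₂).trans h.l1)
  refine ⟨h.tt, h.z1, h.z2, h.d1, h.d2, ?_, h.l2, ?_, ?_⟩
  · exact (mul_le_mul_of_nonneg_right hk hY₂).trans h.l1
  · refine le_trans ?_ h.s1
    nlinarith
  · refine le_trans ?_ h.s2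
    nlinarith

/-- the numerical facts for the intervals -/
theorem TWA_int (κ C₀ sm sg q A B : ℝ) (hκ : 0 < κ) (hκ1 : κ ≤ 1) (hC₀ : C₀ = 31 / κ) (hq : 0 < q)
    (hsm : q ≤ sm) (hsg : 1 ≤ sg) (hA1 : 6 / κ * sm / q ≤ A) (hA2 : A < 6 / κ * sm / q + 1)
    (hB1 : 8 * sg ≤ B) (hB2 : B < 8 * sg + 1) :
    6 / κ * sm ≤ q * A ∧ κ ^ 2 * sm ≤ q * (2 * A + 1) ∧ q * (2 * A + 1) ≤ C₀ * sm ∧
      κ ^ 2 * sg ≤ 2 * B + 1 ∧ 2 * B + 1 ≤ C₀ * sg := by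
  have hC31 : 31 ≤ C₀ := by
    rw [hC₀, le_div_iff₀ hκ]; linarith
  have hk2 : κ ^ 2 ≤ 1 := pow_le_one₀ hκ.le hκ1
  have hsm0 : 0 < sm := by linarith
  have hqA1 : 6 / κ * sm ≤ q * A := by
    rw [div_le_iff₀ hq] at hA1; linarith
  have hqA2 : q * A ≤ 6 / κ * sm + q := by
    have h1 : q * A ≤ q * (6 / κ * sm / q + 1) := mul_le_mul_of_nonneg_left hA2.le hq.le
    have h2 : q * (6 / κ * sm / q + 1) = 6 / κ * sm + q := by field_simp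
    linarith
  have hk6 : 6 ≤ 6 / κ := by rw [le_div_iff₀ hκ]; linarith
  have h6s : 6 * sm ≤ 6 / κ * sm := mul_le_mul_of_nonneg_right hk6 hsm0.le
  have hks : κ ^ 2 * sm ≤ 1 * sm := mul_le_mul_of_nonneg_right hk2 hsm0.le
  have hkg : κ ^ 2 * sg ≤ 1 * sg := mul_le_mul_of_nonneg_right hk2 (by linarith)
  have hCg : 31 * sg ≤ C₀ * sg := mul_le_mul_of_nonneg_right hC31 (by linarith)
  have hC₀' : C₀ * sm = 5 * (6 / κ * sm) + 1 / κ * sm := by rw [hC₀]; ring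
  have hk0 : 0 ≤ 1 / κ * sm := by positivity
  have e1 : q * (2 * A + 1) = 2 * (q * A) + q := by ring
  refine ⟨hqA1, ?_, ?_, ?_, ?_⟩
  · rw [e1]; linarith
  · rw [e1, hC₀']; linarith
  · linarith
  · linarith

/-- the numerical facts for the frequency -/
theorem TWA_frq (C₀ P Y q V H S : ℝ) (hC : 31 ≤ C₀) (hY : 0 < Y) (hq : 0 < q) (hS : S * Y = P)
    (hS0 : 0 < S) (hV1 : Y / q < V) (hV2 : V ≤ 2 * (Y / q)) (hH1 : 1 ≤ H)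
    (hlow : P < 64 * V * (H + 1)) (hup : 64 * H * V ≤ P) : q * S ≤ 256 * H ∧ H ≤ C₀ * q * S := by
  have hV0 : 0 < V := lt_trans (by positivity) hV1
  constructor
  · have h4 : S * Y < 128 * V * H := by
      rw [hS]
      have : V * 1 ≤ V * H := mul_le_mul_of_nonneg_left hH1 hV0.le
      linarith
    have h5 : S * Y < 128 * (2 * (Y / q)) * H := by
      refine h4.trans_le ?_
      gcongr
    have h6 : S * Y * q ≤ 256 * H * Y := by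
      have h7 : 128 * (2 * (Y / q)) * H * q = 256 * H * Y := by field_simp; ring
      have := mul_le_mul_of_nonneg_right h5.le hq.le
      linarith
    have h8 : (q * S) * Y ≤ (256 * H) * Y := by linarith
    exact le_of_mul_le_mul_right h8 hY
  · have h1 : 64 * H * V ≤ S * Y := by rw [hS]; exact hup
    have h2 : 64 * H * (Y / q) ≤ S * Y := by
      refine le_trans ?_ h1
      gcongr
    have h3 : 64 * H * Y ≤ S * Y * q := by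
      have h4 := mul_le_mul_of_nonneg_right h2 hq.le
      have h5 : 64 * H * (Y / q) * q = 64 * H * Y := by field_simp
      linarith
    have h6 : 64 * H ≤ q * S := by
      have : 64 * H * Y ≤ q * S * Y := by linarith
      exact le_of_mul_le_mul_right this hY
    have h7 : 0 ≤ q * S := by positivity
    have h9 : 31 * (q * S) ≤ C₀ * (q * S) := mul_le_mul_of_nonneg_right hC h7
    have h10 : C₀ * q * S = C₀ * (q * S) := by ring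
    linarith

/-- the main term -/
theorem TWA_main (κ C₀ sn sm sg Y Y₂ q H S Mr Gr w n k : ℝ) (hκ : 0 < κ) (hC₀ : 0 < C₀) (hsn : 0 < sn)
    (hsm : 0 < sm) (hsg : 0 < sg) (hY : 0 < Y) (hq : 0 < q) (hH : 0 < H) (hS : S = n ^ 3 * k / Y)
    (hn : κ ^ 2 * sn ≤ n) (hk : 0 < k) (hlow : q * S ≤ 256 * H) (hMr : 1 ≤ Mr) (hGr : 1 ≤ Gr)
    (hw0 : 0 ≤ w) (hw : w ≤ n * k) (hM2 : q * Mr ≤ C₀ * sm) (hG2 : Gr ≤ C₀ * sg) (hmg : sm * sg = Y₂ * sn ^ 2) :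
    2 / H * ((Mr / 1 + 1) * (Gr / 1 + 1)) * w ≤ 2048 * C₀ ^ 2 / κ ^ 4 / q ^ 2 * (Y * Y₂) := by
  have hn0 : 0 < n := lt_of_lt_of_le (by positivity) hn
  have hS0 : 0 < S := by rw [hS]; positivity
  have h1 : 2 / H ≤ 512 / (q * S) := by
    rw [div_le_div_iff₀ hH (by positivity)]
    linarith
  have e1 : Mr / 1 + 1 ≤ 2 * Mr := by rw [div_one]; linarith
  have e2 : Gr / 1 + 1 ≤ 2 * Gr := by rw [div_one]; linarith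
  calc 2 / H * ((Mr / 1 + 1) * (Gr / 1 + 1)) * w
      ≤ 512 / (q * S) * ((2 * Mr) * (2 * Gr)) * (n * k) := by gcongr
    _ = 2048 * ((q * Mr) * Gr) * Y / (q ^ 2 * n ^ 2) := by
        rw [hS]; field_simp; ring
    _ ≤ 2048 * ((C₀ * sm) * (C₀ * sg)) * Y / (q ^ 2 * (κ ^ 2 * sn) ^ 2) := by gcongr
    _ = 2048 * C₀ ^ 2 * (sm * sg) * Y / (q ^ 2 * (κ ^ 2 * sn) ^ 2) := by ring
    _ = 2048 * C₀ ^ 2 / κ ^ 4 / q ^ 2 * (Y * Y₂) := by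
        rw [hmg]; field_simp

/-- BLU for fixed constants -/
def TWA_B (C₂ ε : ℝ) : Prop :=
    ∀ (T N K M G V P e q₁ q₂ y H : ℕ) (a : Fin 4 → ℕ)
    (W : Finset (ℕ × ℕ)) (r s : ℕ × ℕ → ℕ) (ρ : ℕ × ℕ → ℤ × ℤ × ℤ) (m₀ g₀ z₀ r₁ r₂ c₀ : ℕ × ℕ → ℤ),
    1 ≤ N → N ≤ T → 1 ≤ K → K ≤ T → 1 ≤ M → M ≤ T → 1 ≤ G → G ≤ T → 1 ≤ H → H ≤ T → 1 ≤ V → 1 ≤ P →
    1 ≤ e → 1 ≤ q₁ → 1 ≤ q₂ → q₁ * q₂ * e ≤ T → 1 ≤ y → y ≤ T → (∀ i, a i ≤ T) → Squarefree y →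
    Sides N K M G H e q₁ q₂ a → W ⊆ pairs N K y → Resid W q₁ q₂ e r s ρ → 64 * H * V ≤ N ^ 3 * K * e →
    ∑ p ∈ W, ((fibG (m₀ p) (g₀ p) (z₀ p) M G V P (p.1 ^ 3 * p.2 * e) (r₁ p) (r₂ p)
      (ρ p).1 (ρ p).2.1 (ρ p).2.2 (c₀ p)).card : ℝ) ≤
      2 / H * (((M : ℝ) / P + 1) * ((G : ℝ) / P + 1)) * (W.card : ℝ) +
        C₂ * (T : ℝ) ^ ε * (√((M : ℝ) * G) / H) * nB N K H y q₁ q₂ e a

/-- NUMT for fixed sizes -/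
def TWA_N (δ κ C₀ N Y : ℝ) : Prop :=
    ∀ N₁ K₁ M G H q q₁ q₂ : ℕ, Blk (κ ^ 2) C₀ N Y (N ^ (1 / 2 + δ / 100)) N₁ K₁ → 1 ≤ q →
      (q : ℝ) ≤ N ^ (1 / 8 : ℝ) →
    q = q₁ * q₂ → (q₁ = 1 ∨ q₂ = 1) →
    (κ ^ 2) * sM N Y (N ^ (1 / 2 + δ / 100)) ≤ q₁ * M → (q₁ * M : ℝ) ≤ C₀ * sM N Y (N ^ (1 / 2 + δ / 100)) →
    (κ ^ 2) * sG N Y (N ^ (1 / 2 + δ / 100)) ≤ q₂ * G → (q₂ * G : ℝ) ≤ C₀ * sG N Y (N ^ (1 / 2 + δ / 100)) →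
    1 ≤ H → (H : ℝ) ≤ C₀ * q * ((N₁ : ℝ) ^ 3 * K₁ / Y) →
    ∃ a : Fin 4 → ℕ, Sides N₁ K₁ M G H 1 q₁ q₂ a ∧ (∀ i, (a i : ℝ) ≤ N) ∧
      √((M : ℝ) * G) * nB N₁ K₁ H 1 q₁ q₂ 1 a ≤
        relE δ N Y (N ^ (1 / 2 + δ / 100)) q * (q * ((N₁ : ℝ) ^ 3 * K₁ / Y)) * (Y * (N ^ (1 / 2 + δ / 100)))

/-- one block -/
theorem TWA_blk (hRE1 : RE1_stmt) (hRE2 : RE2_stmt) (hCZ : CZ_stmt) (δ κ C₀ C₂ ε : ℝ) (hδ : 0 < δ) (hδ1 : δ ≤ 1 / 10)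
    (hκ : 0 < κ) (hκ1 : κ ≤ 1) (hC₀ : C₀ = 31 / κ) (hC₂ : 1 ≤ C₂)
    (hB : TWA_B C₂ ε) (N Y : ℝ) (hN : 1 ≤ N) (hY1 : N ^ (0.39 : ℝ) ≤ Y) (hY2 : Y ≤ N ^ (1 / 2 - δ))
    (hbig : 128 ≤ κ ^ 8 * (N ^ (1 / 200 : ℝ)) ^ 45) (hNum : TWA_N δ κ C₀ N Y)
    (q : ℕ) (hq : q.Prime) (hqY : (q : ℝ) ≤ N ^ (1 / 2 + δ / 100) / Y) (N₁ K₁ : ℕ) (hN₁ : 1 ≤ N₁) (hK₁ : 1 ≤ K₁)
    (hblk : Blk (κ ^ 2) 6 N Y (N ^ (1 / 2 + δ / 100)) N₁ K₁) (F' : Finset Tpl)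
    (hF : ∀ t ∈ F', Cen κ N Y (N ^ (1 / 2 + δ / 100)) t ∧ ¬ q ∣ t.1.1 * t.1.2 ∧ (q : ℤ) ∣ t.2.2.2 ∧ (q : ℤ) ∣ t.2.1)
    (hF' : ∀ t ∈ F', N₁ < 2 * t.1.1 ∧ t.1.1 ≤ N₁ ∧ K₁ < 2 * t.1.2 ∧ t.1.2 ≤ K₁) :
    (F'.card : ℝ) ≤ (2048 * C₀ ^ 2 / κ ^ 4 / (q : ℝ) ^ 2 +
      256 * C₂ * (⌈C₀ ^ 4 * N ^ 4⌉₊ : ℝ) ^ ε * relE δ N Y (N ^ (1 / 2 + δ / 100)) q) * (Y * N ^ (1 / 2 + δ / 100)) := by
  have hN0 : 0 < N := by linarith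
  obtain ⟨hu1, s1, s2, s3, s4, s5, s6, s7, s8, s9, s10, s11, s12⟩ :=
    TWA_sz δ N Y (N ^ (1 / 200 : ℝ)) hδ hδ1 hN rfl hY1 hY2
  have hu200 : (N ^ (1 / 200 : ℝ)) ^ 200 = N := by rw [TWA_pw N hN 200]; norm_num
  have hu25 : N ^ (1 / 8 : ℝ) = (N ^ (1 / 200 : ℝ)) ^ 25 := by rw [TWA_pw N hN 25]; norm_num
  have hY₂1 : 1 ≤ N ^ (1 / 2 + δ / 100) := Real.one_le_rpow hN (by positivity)
  unfold TWA_N at hNum
  generalize hu : N ^ (1 / 200 : ℝ) = u at *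
  generalize hY₂ : N ^ (1 / 2 + δ / 100) = Y₂ at *
  have hu0 : 0 < u := by linarith
  have hY1' : 1 ≤ Y := (one_le_pow₀ hu1).trans s1
  have hY0 : 0 < Y := by linarith
  have hY₂0 : 0 < Y₂ := by linarith
  have hq0 : (0 : ℝ) < q := by exact_mod_cast hq.pos
  have hq1 : (1 : ℝ) ≤ q := by exact_mod_cast hq.one_le
  have hq23 : (q : ℝ) ≤ u ^ 23 := hqY.trans s2
  have hC31 : 31 ≤ C₀ := by
    rw [hC₀, le_div_iff₀ hκ]; linarith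
  have hu28 : 1 ≤ u ^ 28 := one_le_pow₀ hu1
  have hsN1 : 1 ≤ sN N Y Y₂ := hu28.trans s3
  have hsK1 : 1 ≤ sK N Y Y₂ := hu28.trans s4
  have hsG1 : 1 ≤ sG N Y Y₂ := hu28.trans s6
  have hsM1 : (q : ℝ) ≤ sM N Y Y₂ := hq23.trans ((pow_le_pow_right₀ hu1 (by norm_num)).trans s5)
  have hsM0 : 0 < sM N Y Y₂ := lt_of_lt_of_le hq0 hsM1
  have hqY' : (q : ℝ) ≤ Y := hq23.trans ((pow_le_pow_right₀ hu1 (by norm_num)).trans s1)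
  have hK₁0 : (0 : ℝ) < K₁ := by exact_mod_cast hK₁
  -- the sizes
  obtain ⟨A, hA⟩ : ∃ A : ℕ, A = ⌈6 / κ * sM N Y Y₂ / q⌉₊ := ⟨_, rfl⟩
  obtain ⟨B, hBd⟩ : ∃ B : ℕ, B = ⌈8 * sG N Y Y₂⌉₊ := ⟨_, rfl⟩
  obtain ⟨V, hV⟩ : ∃ V : ℕ, V = ⌊Y / q⌋₊ + 1 := ⟨_, rfl⟩
  have hA1 : 6 / κ * sM N Y Y₂ / q ≤ A := by rw [hA]; exact Nat.le_ceil _
  have hA2 : (A : ℝ) < 6 / κ * sM N Y Y₂ / q + 1 := by rw [hA]; exact Nat.ceil_lt_add_one (by positivity)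
  have hB1 : 8 * sG N Y Y₂ ≤ B := by rw [hBd]; exact Nat.le_ceil _
  have hB2 : (B : ℝ) < 8 * sG N Y Y₂ + 1 := by rw [hBd]; exact Nat.ceil_lt_add_one (by positivity)
  have hV1 : Y / q < V := by rw [hV]; push_cast; exact Nat.lt_floor_add_one _
  have hYq1 : 1 ≤ Y / q := by rw [le_div_iff₀ hq0]; linarith
  have hV2 : (V : ℝ) ≤ 2 * (Y / q) := by
    rw [hV]; push_cast
    have := Nat.floor_le (a := Y / q) (by positivity)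
    linarith
  have hVn : 1 ≤ V := by rw [hV]; exact Nat.le_add_left _ _
  obtain ⟨hqA1, hM1, hM2, hG1, hG2⟩ := TWA_int κ C₀ (sM N Y Y₂) (sG N Y Y₂) q A B hκ hκ1 hC₀ hq0 hsM1 hsG1
    hA1 hA2 hB1 hB2
  obtain ⟨Mn, hMn⟩ : ∃ Mn : ℕ, Mn = 2 * A + 1 := ⟨_, rfl⟩
  obtain ⟨Gn, hGn⟩ : ∃ Gn : ℕ, Gn = 2 * B + 1 := ⟨_, rfl⟩
  have hMr : (Mn : ℝ) = 2 * A + 1 := by rw [hMn]; push_cast; ring
  have hGr : (Gn : ℝ) = 2 * B + 1 := by rw [hGn]; push_cast; ring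
  rw [← hMr] at hM1 hM2
  rw [← hGr] at hG1 hG2
  have hMn1 : 1 ≤ Mn := by rw [hMn]; exact Nat.le_add_left _ _
  have hGn1 : 1 ≤ Gn := by rw [hGn]; exact Nat.le_add_left _ _
  have hMr1 : (1 : ℝ) ≤ Mn := by exact_mod_cast hMn1
  have hGr1 : (1 : ℝ) ≤ Gn := by exact_mod_cast hGn1
  -- N₁ ^ 3 K₁ / Y
  obtain ⟨S, hS⟩ : ∃ S : ℝ, S = (N₁ : ℝ) ^ 3 * K₁ / Y := ⟨_, rfl⟩
  have hSY : S * Y = (N₁ : ℝ) ^ 3 * K₁ := by rw [hS]; exact div_mul_cancel₀ _ hY0.ne'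
  have hSb : 128 ≤ S := by
    rw [hS, le_div_iff₀ hY0]
    have h1 := hblk.n1
    have h2 := hblk.k1
    calc 128 * Y ≤ κ ^ 8 * u ^ 45 * Y := by gcongr
      _ = κ ^ 8 * (u ^ 45 * Y) := by ring
      _ ≤ κ ^ 8 * (sN N Y Y₂ ^ 3 * sK N Y Y₂) := by gcongr
      _ = (κ ^ 2 * sN N Y Y₂) ^ 3 * (κ ^ 2 * sK N Y Y₂) := by ring
      _ ≤ (N₁ : ℝ) ^ 3 * K₁ := by gcongr
  have hS0 : 0 < S := by linarith
  -- the frequency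
  obtain ⟨H, hH⟩ : ∃ H : ℕ, H = (N₁ ^ 3 * K₁) / (64 * V) := ⟨_, rfl⟩
  have hVpos : 0 < 64 * V := Nat.mul_pos (by norm_num) hVn
  have hHV : 64 * H * V ≤ N₁ ^ 3 * K₁ * 1 := by
    have := Nat.div_mul_le_self (N₁ ^ 3 * K₁) (64 * V)
    rw [← hH] at this
    calc 64 * H * V = H * (64 * V) := by ring
      _ ≤ _ := by rw [mul_one]; exact this
  have hle : 64 * (V : ℝ) ≤ (N₁ : ℝ) ^ 3 * K₁ := by
    have h1 : Y / q ≤ Y := div_le_self hY0.le hq1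
    have h2 : 128 * Y ≤ S * Y := mul_le_mul_of_nonneg_right hSb hY0.le
    rw [← hSY]
    linarith
  have hH1 : 1 ≤ H := by
    rw [hH, Nat.le_div_iff_mul_le hVpos, one_mul]
    exact_mod_cast hle
  have hH0 : (0 : ℝ) < H := by exact_mod_cast hH1
  obtain ⟨hHlow, hHup⟩ := TWA_frq C₀ ((N₁ : ℝ) ^ 3 * K₁) Y q V H S hC31 hY0 hq0 hSY hS0 hV1 hV2
    (by exact_mod_cast hH1) (by
      have h1 : N₁ ^ 3 * K₁ < 64 * V * (H + 1) := by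
        rw [hH]; exact Nat.lt_mul_div_succ _ hVpos
      exact_mod_cast h1) (by
      rw [mul_one] at hHV
      exact_mod_cast hHV)
  -- NUMT
  have hblk' : Blk (κ ^ 2) C₀ N Y Y₂ N₁ K₁ := by
    refine ⟨hblk.n1, hblk.n2.trans ?_, hblk.k1, hblk.k2.trans ?_⟩
    · apply mul_le_mul_of_nonneg_right _ (by linarith); linarith
    · apply mul_le_mul_of_nonneg_right _ (by linarith); linarith
  have hq8 : (q : ℝ) ≤ N ^ (1 / 8 : ℝ) := by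
    rw [hu25]
    exact hq23.trans (pow_le_pow_right₀ hu1 (by norm_num))
  obtain ⟨a, ha1, ha2, ha3⟩ := hNum N₁ K₁ Mn Gn H q q 1 hblk' hq.one_le hq8 (mul_one q).symm (Or.inr rfl)
    hM1 hM2 (by rw [Nat.cast_one, one_mul]; exact hG1) (by rw [Nat.cast_one, one_mul]; exact hG2) hH1
    (by rw [← hS]; exact hHup)
  rw [← hS] at ha3
  obtain ⟨ρ, c₀, hres, hcnt⟩ := TWA_cnt hRE1 hRE2 q N₁ K₁ hq A B V
  have hcard := hcnt F' (by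
    intro t ht
    obtain ⟨h1, h2, h3, h4⟩ := hF t ht
    obtain ⟨h5, h6, h7, h8⟩ := hF' t ht
    obtain ⟨-, -, -, -, z5, z6, z7, z8, z9⟩ := hCZ κ N Y Y₂ t hκ hκ1 hN hY1' hY₂1 h1
    refine ⟨h1.tt, ?_, h3, h4, ?_, ?_, z7.le, ?_⟩
    · simp only [TWA_W, pairs, mem_filter, mem_product, mem_Icc]
      exact ⟨⟨⟨⟨h1.tt.n1, h6⟩, ⟨h1.tt.k1, h8⟩⟩, h5, h7, h1.tt.co, one_dvd _⟩, h2⟩
    · have : |(t.2.1 : ℝ)| ≤ q * A := z5.trans hqA1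
      exact_mod_cast this
    · have : |(t.2.2.1 : ℝ)| ≤ B := z6.trans hB1
      exact_mod_cast this
    · have h9 : (t.2.2.2 : ℝ) < q * V := by
        refine lt_of_le_of_lt h1.z2 ?_
        rw [div_lt_iff₀ hq0] at hV1
        linarith
      exact_mod_cast h9)
  rw [← hMn, ← hGn] at hcard
  -- T
  obtain ⟨T, hT⟩ : ∃ T : ℕ, T = ⌈C₀ ^ 4 * N ^ 4⌉₊ := ⟨_, rfl⟩
  have hTle : ∀ x : ℕ, (x : ℝ) ≤ C₀ ^ 4 * N ^ 4 → x ≤ T := by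
    intro x hx
    have : (x : ℝ) ≤ (T : ℝ) := by rw [hT]; exact hx.trans (Nat.le_ceil _)
    exact_mod_cast this
  have hN4 : N ≤ N ^ 4 := le_self_pow₀ hN (by norm_num)
  have hCN : C₀ * N ≤ C₀ ^ 4 * N ^ 4 := by
    have h1 : C₀ ≤ C₀ ^ 4 := le_self_pow₀ (by linarith) (by norm_num)
    gcongr
  have h31N : 31 * N ≤ C₀ * N := mul_le_mul_of_nonneg_right hC31 hN0.le
  have hN₁N : (N₁ : ℝ) ≤ 6 * N := hblk.n2.trans (by linarith)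
  have hK₁N : (K₁ : ℝ) ≤ 6 * N := hblk.k2.trans (by linarith)
  have hqN : (q : ℝ) ≤ N := hq23.trans ((pow_le_pow_right₀ hu1 (by norm_num)).trans (le_of_eq hu200))
  have t1 : N₁ ≤ T := hTle _ (by linarith)
  have t2 : K₁ ≤ T := hTle _ (by linarith)
  have t3 : Mn ≤ T := hTle _ (by
    have h1 : (1 : ℝ) * Mn ≤ (q : ℝ) * Mn := mul_le_mul_of_nonneg_right hq1 (by linarith)
    have h2 : C₀ * sM N Y Y₂ ≤ C₀ * N := mul_le_mul_of_nonneg_left s9 (by linarith)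
    linarith)
  have t4 : Gn ≤ T := hTle _ (by
    have h2 : C₀ * sG N Y Y₂ ≤ C₀ * N := mul_le_mul_of_nonneg_left s10 (by linarith)
    linarith)
  have t5 : H ≤ T := hTle _ (by
    have h1 : (H : ℝ) ≤ (N₁ : ℝ) ^ 3 * K₁ := by
      have : H ≤ N₁ ^ 3 * K₁ := by rw [hH]; exact Nat.div_le_self _ _
      exact_mod_cast this
    have h31 : 6 ≤ C₀ := by linarith
    calc (H : ℝ) ≤ (N₁ : ℝ) ^ 3 * K₁ := h1
      _ ≤ (6 * N) ^ 3 * (6 * N) := by gcongr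
      _ = 6 ^ 4 * N ^ 4 := by ring
      _ ≤ C₀ ^ 4 * N ^ 4 := by gcongr)
  have t6 : q * 1 * 1 ≤ T := by rw [mul_one, mul_one]; exact hTle _ (by linarith)
  have t7 : 1 ≤ T := hTle _ (by rw [Nat.cast_one]; linarith)
  have t8 : ∀ i, a i ≤ T := fun i => hTle _ (by linarith [ha2 i])
  have hfin := hB T N₁ K₁ Mn Gn V 1 1 q 1 1 H a (TWA_W N₁ K₁ q) (fun _ => 1) (fun _ => 1) ρ
    (fun _ => -(A : ℤ)) (fun _ => -(B : ℤ)) (fun _ => 0) (fun _ => 0) (fun _ => 0) c₀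
    hN₁ t1 hK₁ t2 hMn1 t3 hGn1 t4 hH1 t5 hVn le_rfl le_rfl hq.one_le le_rfl t6 le_rfl t7 t8
    squarefree_one ha1 (filter_subset _ _) hres hHV
  have hcardr : (F'.card : ℝ) ≤ ∑ p ∈ TWA_W N₁ K₁ q, ((fibG (-(A : ℤ)) (-(B : ℤ)) 0 Mn Gn V 1
      (p.1 ^ 3 * p.2 * 1) 0 0 (ρ p).1 (ρ p).2.1 (ρ p).2.2 (c₀ p)).card : ℝ) := by
    exact_mod_cast hcard
  refine (hcardr.trans hfin).trans ?_
  rw [← hT]
  have hT'0 : 0 ≤ (T : ℝ) ^ ε := Real.rpow_nonneg (Nat.cast_nonneg _) _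
  have hrel0 := TWA_relE δ N Y Y₂ q hN0 hY0.le hY₂0.le
  rw [add_mul (2048 * C₀ ^ 2 / κ ^ 4 / (q : ℝ) ^ 2)]
  apply add_le_add
  · -- main term
    have hW : ((TWA_W N₁ K₁ q).card : ℝ) ≤ (N₁ : ℝ) * K₁ := by exact_mod_cast TWA_W_card N₁ K₁ q
    have := TWA_main κ C₀ (sN N Y Y₂) (sM N Y Y₂) (sG N Y Y₂) Y Y₂ q H S Mn Gn ((TWA_W N₁ K₁ q).card : ℝ) N₁ K₁
      hκ (by linarith) (by linarith) hsM0 (by linarith) hY0 hq0 hH0 hS hblk.n1 hK₁0 hHlow hMr1 hGr1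
      (Nat.cast_nonneg _) hW hM2 hG2 s12
    rw [Nat.cast_one]
    exact this
  · -- error term
    calc C₂ * (T : ℝ) ^ ε * (√((Mn : ℝ) * Gn) / H) * nB N₁ K₁ H 1 q 1 1 a
        = C₂ * (T : ℝ) ^ ε * (√((Mn : ℝ) * Gn) * nB N₁ K₁ H 1 q 1 1 a) / H := by ring
      _ ≤ C₂ * (T : ℝ) ^ ε * (relE δ N Y Y₂ q * (q * S) * (Y * Y₂)) / H := by
          apply div_le_div_of_nonneg_right _ hH0.le
          exact mul_le_mul_of_nonneg_left ha3 (mul_nonneg (by linarith) hT'0)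
      _ ≤ C₂ * (T : ℝ) ^ ε * (relE δ N Y Y₂ q * (256 * H) * (Y * Y₂)) / H := by
          apply div_le_div_of_nonneg_right _ hH0.le
          apply mul_le_mul_of_nonneg_left _ (mul_nonneg (by linarith) hT'0)
          apply mul_le_mul_of_nonneg_right _ (mul_nonneg hY0.le hY₂0.le)
          exact mul_le_mul_of_nonneg_left hHlow hrel0
      _ = 256 * C₂ * (T : ℝ) ^ ε * relE δ N Y Y₂ q * (Y * Y₂) := by field_simp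

theorem TWA (δ : ℝ) (hδ : 0 < δ) (hδ1 : δ ≤ 1 / 10) (hBLU : BLU_stmt) (hNUMT : NUMT_stmt) (hRE1 : RE1_stmt)
    (hRE2 : RE2_stmt) (hTR : TR_stmt) (hCZ : CZ_stmt) (hCBR : CBR_stmt) : TWA_stmt δ := by
  intro κ₀ hκ₀
  obtain ⟨κ, hκ, hκ1, hκκ⟩ : ∃ κ : ℝ, 0 < κ ∧ κ ≤ 1 ∧ κ ≤ κ₀ :=
    ⟨min κ₀ 1, lt_min hκ₀ one_pos, min_le_right _ _, min_le_left _ _⟩
  have hC31 : 31 ≤ 31 / κ := by rw [le_div_iff₀ hκ]; linarith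
  obtain ⟨C₁, hC₁, hcbr⟩ := hCBR κ hκ hκ1
  obtain ⟨C₂, hC₂, hblu⟩ := hBLU (δ / 800) (by positivity)
  obtain ⟨N₁', hnum⟩ := hNUMT δ (κ ^ 2) (31 / κ) hδ hδ1 (by positivity) (by linarith)
  -- large N
  obtain ⟨N₂, hN₂⟩ : ∃ N₂ : ℝ, ∀ N : ℝ, N₂ ≤ N → 128 / κ ^ 8 ≤ N ^ (1 / 200 : ℝ) :=
    Filter.eventually_atTop.mp ((tendsto_rpow_atTop (by norm_num : (0 : ℝ) < 1 / 200)).eventually_ge_atTop _)
  obtain ⟨N₃, hN₃⟩ : ∃ N₃ : ℝ, ∀ N : ℝ, N₃ ≤ N → 512 * C₁ * C₂ * (31 / κ) ^ 4 ≤ N ^ (δ / 200 : ℝ) :=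
    Filter.eventually_atTop.mp ((tendsto_rpow_atTop (by positivity : (0 : ℝ) < δ / 200)).eventually_ge_atTop _)
  refine ⟨C₁ * (2048 * (31 / κ) ^ 2 / κ ^ 4), max (max 1 N₁') (max N₂ N₃), ?_, ?_⟩
  · have h1 : 1 ≤ (31 / κ) ^ 2 := one_le_pow₀ (by linarith)
    have h2 : κ ^ 4 ≤ 1 := pow_le_one₀ hκ.le hκ1
    have h3 : 1 ≤ 2048 * (31 / κ) ^ 2 / κ ^ 4 := by
      rw [le_div_iff₀ (by positivity)]; linarith
    nlinarith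
  intro N Y hNN hY1 hY2 q hq hqY F hF
  have hN : 1 ≤ N := (le_max_left _ _).trans ((le_max_left _ _).trans hNN)
  have hN1' : N₁' ≤ N := (le_max_right _ _).trans ((le_max_left _ _).trans hNN)
  have hu128 := hN₂ N ((le_max_left _ _).trans ((le_max_right _ _).trans hNN))
  have hC512 := hN₃ N ((le_max_right _ _).trans ((le_max_right _ _).trans hNN))
  have hN0 : 0 < N := by linarith
  obtain ⟨hu1, s1, s2, s3, s4, s5, s6, s7, s8, s9, s10, s11, s12⟩ :=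
    TWA_sz δ N Y (N ^ (1 / 200 : ℝ)) hδ hδ1 hN rfl hY1 hY2
  have hY1' : 1 ≤ Y := (one_le_pow₀ hu1).trans s1
  have hY₂1 : 1 ≤ N ^ (1 / 2 + δ / 100) := Real.one_le_rpow hN (by positivity)
  have hk8 : κ ^ 8 ≤ κ ^ 2 := pow_le_pow_of_le_one hκ.le hκ1 (by norm_num)
  have hu128' : 128 ≤ κ ^ 8 * N ^ (1 / 200 : ℝ) := by
    rw [div_le_iff₀ (by positivity)] at hu128
    linarith
  have hbig : 128 ≤ κ ^ 8 * (N ^ (1 / 200 : ℝ)) ^ 45 := by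
    have : N ^ (1 / 200 : ℝ) ≤ (N ^ (1 / 200 : ℝ)) ^ 45 := le_self_pow₀ hu1 (by norm_num)
    have h0 : 0 < κ ^ 8 := by positivity
    nlinarith
  have hone : ∀ x : ℝ, (N ^ (1 / 200 : ℝ)) ^ 28 ≤ x → 1 ≤ κ ^ 2 * x := by
    intro x hx
    have h1 : N ^ (1 / 200 : ℝ) ≤ (N ^ (1 / 200 : ℝ)) ^ 28 := le_self_pow₀ hu1 (by norm_num)
    have h2 : N ^ (1 / 200 : ℝ) ≤ x := h1.trans hx
    have h3 : 0 < N ^ (1 / 200 : ℝ) := by linarith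
    have h4 : κ ^ 8 * N ^ (1 / 200 : ℝ) ≤ κ ^ 2 * x := by gcongr
    linarith
  have hrng : Rng δ N Y (N ^ (1 / 2 + δ / 100)) := by
    refine ⟨?_, hY2, ?_, le_rfl⟩
    · refine le_trans ?_ hY1
      exact Real.rpow_le_rpow_of_exponent_le hN (by norm_num)
    · exact Real.rpow_le_rpow_of_exponent_le hN (by linarith)
  have hrel0 := TWA_relE δ N Y (N ^ (1 / 2 + δ / 100)) q hN0 (by linarith) (by linarith)
  set Bd : ℝ := (2048 * (31 / κ) ^ 2 / κ ^ 4 / (q : ℝ) ^ 2 +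
      256 * C₂ * (⌈(31 / κ) ^ 4 * N ^ 4⌉₊ : ℝ) ^ (δ / 800) * relE δ N Y (N ^ (1 / 2 + δ / 100)) q) *
        (Y * N ^ (1 / 2 + δ / 100)) with hBd
  have hBd0 : 0 ≤ Bd := by
    have h1 : (0 : ℝ) ≤ (⌈(31 / κ) ^ 4 * N ^ 4⌉₊ : ℝ) ^ (δ / 800) := Real.rpow_nonneg (Nat.cast_nonneg _) _
    rw [hBd]
    positivity
  have hfin := hcbr N Y (N ^ (1 / 2 + δ / 100)) hN hY1' hY₂1 (hone _ s3) (hone _ s4) F
    (fun t ht => TWA_cen hκ₀ hκκ (by linarith) (by linarith) (hF t ht).1) Bd hBd0 (by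
      intro N₁ K₁ hN₁ hK₁ hblk F' hF'F hF'
      exact TWA_blk hRE1 hRE2 hCZ δ κ (31 / κ) C₂ (δ / 800) hδ hδ1 hκ hκ1 rfl hC₂ hblu N Y hN hY1 hY2 hbig
        (hnum N Y (N ^ (1 / 2 + δ / 100)) hN1' hrng) q hq hqY N₁ K₁ hN₁ hK₁ hblk F'
        (fun t ht => ⟨TWA_cen hκ₀ hκκ (by linarith) (by linarith) (hF t (hF'F ht)).1, (hF t (hF'F ht)).2⟩) hF')
  refine hfin.trans ?_
  -- T ^ ε
  have hTT : (⌈(31 / κ) ^ 4 * N ^ 4⌉₊ : ℝ) ^ (δ / 800) ≤ 2 * (31 / κ) ^ 4 * N ^ (δ / 200) := by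
    have h1 : 1 ≤ (31 / κ) ^ 4 := one_le_pow₀ (by linarith)
    have h2 : 1 ≤ N ^ 4 := one_le_pow₀ hN
    have h3 : 1 ≤ (31 / κ) ^ 4 * N ^ 4 := by nlinarith
    have h4 : (⌈(31 / κ) ^ 4 * N ^ 4⌉₊ : ℝ) ≤ 2 * (31 / κ) ^ 4 * N ^ 4 := by
      have := Nat.ceil_lt_add_one (a := (31 / κ) ^ 4 * N ^ 4) (by positivity)
      linarith
    calc (⌈(31 / κ) ^ 4 * N ^ 4⌉₊ : ℝ) ^ (δ / 800) ≤ (2 * (31 / κ) ^ 4 * N ^ 4) ^ (δ / 800) :=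
          Real.rpow_le_rpow (Nat.cast_nonneg _) h4 (by positivity)
      _ = (2 * (31 / κ) ^ 4) ^ (δ / 800) * (N ^ 4) ^ (δ / 800) :=
          Real.mul_rpow (by positivity) (by positivity)
      _ ≤ (2 * (31 / κ) ^ 4) ^ (1 : ℝ) * (N ^ 4) ^ (δ / 800) := by
          apply mul_le_mul_of_nonneg_right _ (by positivity)
          apply Real.rpow_le_rpow_of_exponent_le (by linarith)
          linarith
      _ = 2 * (31 / κ) ^ 4 * N ^ (δ / 200) := by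
          rw [Real.rpow_one, ← Real.rpow_natCast N 4, ← Real.rpow_mul hN0.le]
          congr 2
          push_cast; ring
  have hE : C₁ * (256 * C₂ * (⌈(31 / κ) ^ 4 * N ^ 4⌉₊ : ℝ) ^ (δ / 800)) ≤ N ^ (δ / 100) := by
    have h1 : N ^ (δ / 100) = N ^ (δ / 200) * N ^ (δ / 200) := by
      rw [← Real.rpow_add hN0]; congr 1; ring
    rw [h1]
    calc C₁ * (256 * C₂ * (⌈(31 / κ) ^ 4 * N ^ 4⌉₊ : ℝ) ^ (δ / 800))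
        ≤ C₁ * (256 * C₂ * (2 * (31 / κ) ^ 4 * N ^ (δ / 200))) := by gcongr
      _ = (512 * C₁ * C₂ * (31 / κ) ^ 4) * N ^ (δ / 200) := by ring
      _ ≤ N ^ (δ / 200) * N ^ (δ / 200) := by gcongr
  have hYY : 0 ≤ Y * N ^ (1 / 2 + δ / 100) := by positivity
  calc C₁ * Bd = (C₁ * (2048 * (31 / κ) ^ 2 / κ ^ 4) / (q : ℝ) ^ 2 +
      C₁ * (256 * C₂ * (⌈(31 / κ) ^ 4 * N ^ 4⌉₊ : ℝ) ^ (δ / 800)) * relE δ N Y (N ^ (1 / 2 + δ / 100)) q) *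
        (Y * N ^ (1 / 2 + δ / 100)) := by rw [hBd]; ring
    _ ≤ (C₁ * (2048 * (31 / κ) ^ 2 / κ ^ 4) / (q : ℝ) ^ 2 +
      N ^ (δ / 100) * relE δ N Y (N ^ (1 / 2 + δ / 100)) q) * (Y * N ^ (1 / 2 + δ / 100)) := by
        gcongr

end Pool.Agent.T5
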