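import Pool.Agent.helper8.T5.SpecU

set_option autoImplicit false

namespace Pool.Agent.T5

open Finset NumberField Pool.Agent.helper3.FT Pool.Agent.helper47.RA

theorem UEL_abs {D : ℤ} {r z : ℕ} {X R : ℤ} (h : EQd D r z X R) :
    EQd D r z (X.natAbs : ℤ) (R.natAbs : ℤ) := by
  refine ⟨?_, h.dvd, ?_⟩
  · rw [Int.natCast_natAbs]
    rcases abs_choice R with h1 | h1
    · rw [h1]; exact h.cop
    · rw [h1]; exact h.cop.neg_left
  · rw [Int.natCast_natAbs, Int.natCast_natAbs, sq_abs, sq_abs]; exact h.eq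

theorem UEL_four (F : Finset (ℤ × ℤ)) (X R : ℕ) (h : ∀ p ∈ F, p.1.natAbs = X ∧ p.2.natAbs = R) :
    F.card ≤ 4 := by
  have h1 : F ⊆ (({(X : ℤ), -(X : ℤ)} : Finset ℤ) ×ˢ ({(R : ℤ), -(R : ℤ)} : Finset ℤ)) := by
    intro p hp
    obtain ⟨h2, h3⟩ := h p hp
    simp only [mem_product, mem_insert, mem_singleton]
    omega
  refine (card_le_card h1).trans ?_
  rw [card_product]
  have h2 : ({(X : ℤ), -(X : ℤ)} : Finset ℤ).card ≤ 2 := card_le_two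
  have h3 : ({(R : ℤ), -(R : ℤ)} : Finset ℤ).card ≤ 2 := card_le_two
  exact Nat.mul_le_mul h2 h3

theorem UEL_fix (hUXR : UXR_stmt) (N : ℝ) (r z R : ℕ) (hN : 1 ≤ N) (hr : 1 ≤ r) (hz : 1 ≤ z)
    (hR : 1 ≤ R) (F : Finset (ℤ × ℤ))
    (hF : ∀ p ∈ F, p.2.natAbs = R ∧ ∃ D : ℤ, N / 2 < -(D : ℝ) ∧ -(D : ℝ) ≤ N ∧ EQd D r z p.1 p.2) :
    (F.card : ℝ) ≤ 8 * ((R ^ 2).divisors.card : ℝ) * (N / ((r : ℝ) * √r * ((z : ℝ) ^ 2 * √z)) + 1) := by
  have h1 : F.card ≤ 4 * (F.image fun p => p.1.natAbs).card := by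
    refine card_le_mul_card_image_of_maps_to (fun p hp => mem_image_of_mem _ hp) _ ?_
    intro b hb
    apply UEL_four _ b R
    intro p hp
    rw [mem_filter] at hp
    exact ⟨hp.2, (hF p hp.1).1⟩
  have h2 := hUXR N r z R (by linarith) hr hz hR (F.image fun p => p.1.natAbs) (by
    intro X hX
    rw [mem_image] at hX
    obtain ⟨p, hp, rfl⟩ := hX
    obtain ⟨h3, D, h4, h5, h6⟩ := hF p hp
    refine ⟨D, h4, h5, ?_⟩
    have h7 := UEL_abs h6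
    rw [h3] at h7
    exact h7)
  have h3 : (F.card : ℝ) ≤ 4 * ((F.image fun p => p.1.natAbs).card : ℝ) := by exact_mod_cast h1
  nlinarith

theorem UEL (hUXR : UXR_stmt) : UEL_stmt := by
  intro ε hε
  obtain ⟨C₀, hC₀, hdiv⟩ := card_divisors_le (ε / 5) (by positivity)
  refine ⟨24 * C₀ * (8 : ℝ) ^ (ε / 5), ?_, ?_⟩
  · have : (1 : ℝ) ≤ (8 : ℝ) ^ (ε / 5) := Real.one_le_rpow (by norm_num) (by positivity)
    nlinarith
  intro N r z hN hr hz F hF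
  have hr0 : (0 : ℝ) < r := by exact_mod_cast hr
  have hz0 : (0 : ℝ) < z := by exact_mod_cast hz
  have hr1 : (1 : ℝ) ≤ r := by exact_mod_cast hr
  have hz1 : (1 : ℝ) ≤ z := by exact_mod_cast hz
  have hN0 : 0 < N := by linarith
  set Q : ℝ := (r : ℝ) * √r * ((z : ℝ) ^ 2 * √z) with hQ
  have hsr : 0 < √(r : ℝ) := Real.sqrt_pos.mpr hr0
  have hsz : 0 < √(z : ℝ) := Real.sqrt_pos.mpr hz0
  have hsN : 0 < √N := Real.sqrt_pos.mpr hN0
  have hQ0 : 0 < Q := by rw [hQ]; positivity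
  set Rm : ℝ := √(8 * r * (z : ℝ) ^ 5 / N) with hRm
  have hRm0 : 0 ≤ Rm := Real.sqrt_nonneg _
  -- bound for R
  have hRb : ∀ p ∈ F, ((p.2.natAbs : ℕ) : ℝ) ≤ Rm := by
    intro p hp
    obtain ⟨h1, D, h2, h3, h4⟩ := hF p hp
    apply Real.le_sqrt_of_sq_le
    have h5 : (r : ℝ) ^ 2 * (p.1 : ℝ) ^ 2 - D * (p.2 : ℝ) ^ 2 = 4 * r * (z : ℝ) ^ 5 := by
      exact_mod_cast h4.eq
    have h6 : ((p.2.natAbs : ℕ) : ℝ) ^ 2 = (p.2 : ℝ) ^ 2 := by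
      rw [Nat.cast_natAbs, Int.cast_abs, sq_abs]
    rw [h6, le_div_iff₀ hN0]
    have h7 : 0 ≤ (r : ℝ) ^ 2 * (p.1 : ℝ) ^ 2 := by positivity
    have h8 : 0 ≤ (p.2 : ℝ) ^ 2 := sq_nonneg _
    nlinarith [mul_nonneg h8 (by linarith : 0 ≤ -(D : ℝ) - N / 2)]
  -- the bound of the divisor function
  have hτ : ∀ R : ℕ, 1 ≤ R → (R : ℝ) ≤ Rm →
      (((R ^ 2).divisors.card : ℕ) : ℝ) ≤ C₀ * ((8 : ℝ) ^ (ε / 5) * ((r : ℝ) * z) ^ ε) := by
    intro R hR1 hR2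
    have h1 := hdiv (R ^ 2) (by positivity)
    refine h1.trans ?_
    apply mul_le_mul_of_nonneg_left _ (by linarith)
    have h2 : ((R ^ 2 : ℕ) : ℝ) ≤ 8 * ((r : ℝ) * z) ^ 5 := by
      push_cast
      have h3 : (R : ℝ) ^ 2 ≤ Rm ^ 2 := pow_le_pow_left₀ (Nat.cast_nonneg _) hR2 2
      have h4 : Rm ^ 2 = 8 * r * (z : ℝ) ^ 5 / N := by
        rw [hRm]; exact Real.sq_sqrt (by positivity)
      have h5 : 8 * r * (z : ℝ) ^ 5 / N ≤ 8 * r * (z : ℝ) ^ 5 := div_le_self (by positivity) hN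
      have h6 : (r : ℝ) ≤ (r : ℝ) ^ 5 := le_self_pow₀ hr1 (by norm_num)
      have h7 : 8 * r * (z : ℝ) ^ 5 ≤ 8 * (r : ℝ) ^ 5 * (z : ℝ) ^ 5 := by gcongr
      calc (R : ℝ) ^ 2 ≤ 8 * (r : ℝ) ^ 5 * (z : ℝ) ^ 5 := by linarith
        _ = 8 * ((r : ℝ) * z) ^ 5 := by ring
    have hrz : 0 ≤ (r : ℝ) * z := by positivity
    calc ((R ^ 2 : ℕ) : ℝ) ^ (ε / 5) ≤ (8 * ((r : ℝ) * z) ^ 5) ^ (ε / 5) :=
          Real.rpow_le_rpow (Nat.cast_nonneg _) h2 (by positivity)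
      _ = (8 : ℝ) ^ (ε / 5) * (((r : ℝ) * z) ^ 5) ^ (ε / 5) :=
          Real.mul_rpow (by norm_num) (by positivity)
      _ = (8 : ℝ) ^ (ε / 5) * ((r : ℝ) * z) ^ ε := by
          congr 1
          rw [← Real.rpow_natCast, ← Real.rpow_mul hrz]
          congr 1
          push_cast
          ring
  set T : ℝ := C₀ * ((8 : ℝ) ^ (ε / 5) * ((r : ℝ) * z) ^ ε) with hT
  have hT0 : 0 ≤ T := by rw [hT]; positivity
  -- the sum
  have hsum : (F.card : ℝ) ≤ (⌊Rm⌋₊ : ℝ) * (8 * T * (N / Q + 1)) := by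
    have h1 : F.card = ∑ R ∈ Icc 1 ⌊Rm⌋₊, (F.filter fun p => p.2.natAbs = R).card := by
      apply card_eq_sum_card_fiberwise
      intro p hp
      have hp' : p ∈ F := by exact_mod_cast hp
      have h2 := (hF p hp').1
      simp only [coe_Icc, Set.mem_Icc]
      refine ⟨?_, Nat.le_floor (hRb p hp')⟩
      omega
    have h2 : ∀ R ∈ Icc 1 ⌊Rm⌋₊, (((F.filter fun p => p.2.natAbs = R).card : ℕ) : ℝ)
        ≤ 8 * T * (N / Q + 1) := by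
      intro R hR
      rw [mem_Icc] at hR
      have hR2 : (R : ℝ) ≤ Rm := (Nat.le_floor_iff hRm0).mp hR.2
      have h3 := UEL_fix hUXR N r z R hN hr hz hR.1 (F.filter fun p => p.2.natAbs = R) (by
        intro p hp
        rw [mem_filter] at hp
        exact ⟨hp.2, (hF p hp.1).2⟩)
      refine h3.trans ?_
      have h4 := hτ R hR.1 hR2
      rw [← hQ]
      gcongr
    rw [h1]
    push_cast
    refine (sum_le_sum h2).trans ?_
    rw [sum_const, Nat.card_Icc, nsmul_eq_mul]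
    simp
  have hfl : (⌊Rm⌋₊ : ℝ) ≤ Rm := Nat.floor_le hRm0
  have hsum2 : (F.card : ℝ) ≤ Rm * (8 * T * (N / Q + 1)) := by
    refine hsum.trans ?_
    apply mul_le_mul_of_nonneg_right hfl
    positivity
  refine hsum2.trans ?_
  -- R_m
  have h8 : (√8 : ℝ) ≤ 3 := Real.sqrt_le_iff.mpr ⟨by norm_num, by norm_num⟩
  have hRm' : Rm = √8 * ((z : ℝ) ^ 2 * √z * √r / √N) := by
    have e2 : √(r : ℝ) ^ 2 = r := Real.sq_sqrt hr0.le
    have e3 : √(z : ℝ) ^ 2 = z := Real.sq_sqrt hz0.le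
    have e4 : (√8 : ℝ) ^ 2 = 8 := Real.sq_sqrt (by norm_num)
    have e5 : √N ^ 2 = N := Real.sq_sqrt hN0.le
    rw [hRm, Real.sqrt_eq_iff_mul_self_eq (by positivity) (by positivity)]
    symm
    calc √8 * ((z : ℝ) ^ 2 * √z * √r / √N) * (√8 * ((z : ℝ) ^ 2 * √z * √r / √N))
        = √8 ^ 2 * ((z : ℝ) ^ 4 * √z ^ 2 * √r ^ 2 / √N ^ 2) := by ring
      _ = 8 * r * (z : ℝ) ^ 5 / N := by rw [e2, e3, e4, e5]; ring
  have hRmN : Rm * (N / Q) = √8 * (√N / r) := by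
    have e5 : √N * √N = N := Real.mul_self_sqrt hN0.le
    rw [hRm', hQ]
    field_simp
    linarith
  have hfin : Rm * (N / Q + 1) ≤ 3 * (√N / r + (z : ℝ) ^ 2 * √z * √r / √N) := by
    have : Rm * (N / Q + 1) = √8 * (√N / r + (z : ℝ) ^ 2 * √z * √r / √N) := by
      rw [mul_add, hRmN, mul_one, hRm']; ring
    rw [this]
    apply mul_le_mul_of_nonneg_right h8
    positivity
  calc Rm * (8 * T * (N / Q + 1)) = 8 * T * (Rm * (N / Q + 1)) := by ring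
    _ ≤ 8 * T * (3 * (√N / r + (z : ℝ) ^ 2 * √z * √r / √N)) :=
        mul_le_mul_of_nonneg_left hfin (by positivity)
    _ = 24 * C₀ * (8 : ℝ) ^ (ε / 5) * ((r : ℝ) * z) ^ ε * (√N / r + (z : ℝ) ^ 2 * √z * √r / √N) := by
        rw [hT]; ring
end Pool.Agent.T5
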