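import Pool.Agent.helper8.T5.SpecU

set_option autoImplicit false

namespace Pool.Agent.T5

open Finset NumberField Pool.Agent.helper3.FT Pool.Agent.helper47.RA

theorem UIV_fib (M : ℕ) (hM : 0 < M) (u v : ℝ) (huv : u ≤ v) (b : ℕ) (F : Finset ℤ)
    (hF : ∀ x ∈ F, u ≤ x ∧ (x : ℝ) ≤ v ∧ (x % (M : ℤ)).toNat = b) :
    F.card ≤ ⌊(v - u) / M⌋₊ + 1 := by
  have hMz : (0 : ℤ) < (M : ℤ) := by exact_mod_cast hM
  have hMr : (0 : ℝ) < (M : ℝ) := by exact_mod_cast hM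
  have hx : ∀ x ∈ F, x = b + x / (M : ℤ) * M := by
    intro x hx
    have h1 := (hF x hx).2.2
    have h2 : 0 ≤ x % (M : ℤ) := Int.emod_nonneg _ hMz.ne'
    have h3 : x % (M : ℤ) = b := by omega
    have h4 := Int.emod_add_mul_ediv x (M : ℤ)
    rw [h3] at h4
    linarith [mul_comm (M : ℤ) (x / M)]
  have hsub : F.image (fun x => x / (M : ℤ)) ⊆ Icc ⌈(u - b) / M⌉ ⌊(v - b) / M⌋ := by
    intro k hk
    rw [mem_image] at hk
    obtain ⟨x, hxF, rfl⟩ := hk
    have h1 := hx x hxF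
    have h2 := (hF x hxF).1
    have h3 := (hF x hxF).2.1
    have h4 : (x : ℝ) = b + ((x / (M : ℤ) : ℤ) : ℝ) * M := by
      exact_mod_cast h1
    rw [mem_Icc]
    constructor
    · rw [Int.ceil_le, div_le_iff₀ hMr]
      linarith
    · rw [Int.le_floor, le_div_iff₀ hMr]
      linarith
  have hinj : Set.InjOn (fun x => x / (M : ℤ)) (F : Set ℤ) := by
    intro x hxF y hyF hxy
    have h1 := hx x hxF
    have h2 := hx y hyF
    simp only at hxy
    rw [h1, h2, hxy]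
  have hc := card_le_card hsub
  rw [card_image_of_injOn hinj, Int.card_Icc] at hc
  refine hc.trans ?_
  have h5 : (⌊(v - b) / M⌋ : ℝ) ≤ (v - b) / M := Int.floor_le _
  have h6 : (u - b) / M ≤ (⌈(u - b) / M⌉ : ℝ) := Int.le_ceil _
  have h7 : ((⌊(v - b) / M⌋ - ⌈(u - b) / M⌉ : ℤ) : ℝ) ≤ (v - u) / M := by
    push_cast
    have : (v - u) / M = (v - b) / M - (u - b) / M := by ring
    linarith
  have h8 : ⌊(v - b) / M⌋ - ⌈(u - b) / M⌉ ≤ ⌊(v - u) / M⌋ := Int.le_floor.mpr h7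
  have h9 : (⌊(v - u) / M⌋₊ : ℤ) = ⌊(v - u) / M⌋ :=
    Int.natCast_floor_eq_floor (div_nonneg (by linarith) hMr.le)
  omega

theorem UIV (hUSQ : USQ_stmt) : UIV_stmt := by
  intro M c hM hc u v huv F hF
  have hMz : (0 : ℤ) < (M : ℤ) := by exact_mod_cast hM
  have hMr : (0 : ℝ) < (M : ℝ) := by exact_mod_cast hM
  have h1 : F.card ≤ (⌊(v - u) / M⌋₊ + 1) *
      ((range M).filter fun x : ℕ => (M : ℤ) ∣ (x : ℤ) ^ 2 - c).card := by
    refine card_le_mul_card_image_of_maps_to (f := fun x : ℤ => (x % (M : ℤ)).toNat) ?_ _ ?_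
    · intro x hx
      have h2 : 0 ≤ x % (M : ℤ) := Int.emod_nonneg _ hMz.ne'
      have h3 : x % (M : ℤ) < M := Int.emod_lt_of_pos _ hMz
      rw [mem_filter, mem_range]
      constructor
      · omega
      · have h4 : (((x % (M : ℤ)).toNat : ℕ) : ℤ) = x % (M : ℤ) := Int.toNat_of_nonneg h2
        rw [h4]
        have h5 := (hF x hx).2.2
        have h6 : (M : ℤ) ∣ x - x % (M : ℤ) := Int.dvd_self_sub_emod
        have h7 : (x % (M : ℤ)) ^ 2 - c = (x ^ 2 - c) - (x - x % (M : ℤ)) * (x + x % (M : ℤ)) := by ring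
        rw [h7]
        exact dvd_sub h5 (h6.mul_right _)
    · intro b hb
      apply UIV_fib M hM u v huv b
      intro x hx
      rw [mem_filter] at hx
      exact ⟨(hF x hx.1).1, (hF x hx.1).2.1, hx.2⟩
  have h2 := hUSQ M c hM hc
  have h3 : (F.card : ℝ) ≤ ((⌊(v - u) / M⌋₊ : ℝ) + 1) * (2 * M.divisors.card) := by
    have h4 : F.card ≤ (⌊(v - u) / M⌋₊ + 1) * (2 * M.divisors.card) :=
      h1.trans (Nat.mul_le_mul_left _ h2)
    exact_mod_cast h4
  have h5 : (⌊(v - u) / M⌋₊ : ℝ) ≤ (v - u) / M :=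
    Nat.floor_le (div_nonneg (by linarith) hMr.le)
  have h6 : (0 : ℝ) ≤ 2 * (M.divisors.card : ℝ) := by positivity
  nlinarith [mul_le_mul_of_nonneg_right (add_le_add_left h5 1) h6]
end Pool.Agent.T5
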