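import Pool.Agent.helper8.T5.SpecU

set_option autoImplicit false

namespace Pool.Agent.T5

open Finset NumberField Pool.Agent.helper3.FT Pool.Agent.helper47.RA

theorem UXR_int (A B : ℝ) (hA : 0 < A) (hB : 0 < B) (hAB : B < 2 * A) :
    √(A - B) ≤ √(A - B / 2) ∧ (√(A - B / 2) - √(A - B)) * √(2 * A) ≤ B := by
  have h0 : √(A - B) ≤ √(A - B / 2) := Real.sqrt_le_sqrt (by linarith)
  refine ⟨h0, ?_⟩
  have hw : √(2 * A) ^ 2 = 2 * A := Real.sq_sqrt (by linarith)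
  have hw0 : 0 ≤ √(2 * A) := Real.sqrt_nonneg _
  have hv : √(A - B / 2) ^ 2 = A - B / 2 := Real.sq_sqrt (by linarith)
  have hv0 : 0 ≤ √(A - B / 2) := Real.sqrt_nonneg _
  have hu0 : 0 ≤ √(A - B) := Real.sqrt_nonneg _
  rcases le_or_gt B A with h | h
  · have hu : √(A - B) ^ 2 = A - B := Real.sq_sqrt (by linarith)
    have h1 : √(2 * A) ≤ 2 * √(A - B / 2) := by
      apply Real.sqrt_le_iff.mpr
      constructor
      · linarith
      · nlinarith
    calc (√(A - B / 2) - √(A - B)) * √(2 * A)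
        ≤ (√(A - B / 2) - √(A - B)) * (2 * √(A - B / 2)) :=
          mul_le_mul_of_nonneg_left h1 (by linarith)
      _ ≤ (√(A - B / 2) - √(A - B)) * (2 * (√(A - B / 2) + √(A - B))) :=
          mul_le_mul_of_nonneg_left (by linarith) (by linarith)
      _ = B := by
          have : (√(A - B / 2) - √(A - B)) * (2 * (√(A - B / 2) + √(A - B)))
              = 2 * (√(A - B / 2) ^ 2 - √(A - B) ^ 2) := by ring
          rw [this, hv, hu]; ring
  · have h1 : 2 * √(A - B / 2) ≤ √(2 * A) := by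
      apply Real.le_sqrt_of_sq_le
      nlinarith
    have hu : √(A - B) = 0 := Real.sqrt_eq_zero_of_nonpos (by linarith)
    rw [hu, sub_zero]
    nlinarith [mul_le_mul_of_nonneg_right h1 hw0]

theorem UXR_sqrt (r z : ℝ) (hr : 1 ≤ r) (hz : 1 ≤ z) :
    r ^ 2 * √(2 * (4 * z ^ 5 / r)) = √8 * (r * √r * (z ^ 2 * √z)) := by
  have hr0 : 0 < r := by linarith
  have hz0 : 0 < z := by linarith
  have h1 : (0 : ℝ) ≤ r ^ 2 * √(2 * (4 * z ^ 5 / r)) := by positivity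
  have h2 : (0 : ℝ) ≤ √8 * (r * √r * (z ^ 2 * √z)) := by positivity
  have h3 : (r ^ 2 * √(2 * (4 * z ^ 5 / r))) ^ 2 = (√8 * (r * √r * (z ^ 2 * √z))) ^ 2 := by
    have e1 : √(2 * (4 * z ^ 5 / r)) ^ 2 = 2 * (4 * z ^ 5 / r) := Real.sq_sqrt (by positivity)
    have e2 : √r ^ 2 = r := Real.sq_sqrt hr0.le
    have e3 : √z ^ 2 = z := Real.sq_sqrt hz0.le
    have e4 : (√8 : ℝ) ^ 2 = 8 := Real.sq_sqrt (by norm_num)
    calc (r ^ 2 * √(2 * (4 * z ^ 5 / r))) ^ 2 = r ^ 4 * √(2 * (4 * z ^ 5 / r)) ^ 2 := by ring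
      _ = r ^ 4 * (2 * (4 * z ^ 5 / r)) := by rw [e1]
      _ = 8 * (r ^ 2 * r * (z ^ 4 * z)) := by field_simp; ring
      _ = √8 ^ 2 * (r ^ 2 * √r ^ 2 * (z ^ 4 * √z ^ 2)) := by rw [e2, e3, e4]
      _ = (√8 * (r * √r * (z ^ 2 * √z))) ^ 2 := by ring
  exact (pow_left_inj₀ h1 h2 (by norm_num)).mp h3

/-- the common end: `(v - u) / R² ≤ N / (2 Q)` -/
theorem UXR_len (N r z R : ℝ) (hN : 0 < N) (hr : 1 ≤ r) (hz : 1 ≤ z) (hR : 1 ≤ R)
    (hAB : N * R ^ 2 / r ^ 2 < 2 * (4 * z ^ 5 / r)) :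
    (√(4 * z ^ 5 / r - N * R ^ 2 / r ^ 2 / 2) - √(4 * z ^ 5 / r - N * R ^ 2 / r ^ 2)) / R ^ 2
      ≤ N / (2 * (r * √r * (z ^ 2 * √z))) := by
  have hr0 : 0 < r := by linarith
  have hz0 : 0 < z := by linarith
  have hR0 : 0 < R := by linarith
  obtain ⟨h1, h2⟩ := UXR_int (4 * z ^ 5 / r) (N * R ^ 2 / r ^ 2) (by positivity) (by positivity) hAB
  have h3 := UXR_sqrt r z hr hz
  set w := √(2 * (4 * z ^ 5 / r)) with hw
  set d := √(4 * z ^ 5 / r - N * R ^ 2 / r ^ 2 / 2) - √(4 * z ^ 5 / r - N * R ^ 2 / r ^ 2) with hd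
  have hd0 : 0 ≤ d := by rw [hd]; linarith
  set Q := r * √r * (z ^ 2 * √z) with hQ
  have hsr : 0 < √r := Real.sqrt_pos.mpr hr0
  have hsz : 0 < √z := Real.sqrt_pos.mpr hz0
  have hQ0 : 0 < Q := by rw [hQ]; positivity
  have h4 : d * (r ^ 2 * w) ≤ N * R ^ 2 := by
    have : d * w * r ^ 2 ≤ N * R ^ 2 / r ^ 2 * r ^ 2 := mul_le_mul_of_nonneg_right h2 (by positivity)
    rw [div_mul_cancel₀ _ (by positivity)] at this
    linarith
  rw [h3] at h4
  have h8 : (2 : ℝ) ≤ √8 := Real.le_sqrt_of_sq_le (by norm_num)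
  have h5 : d * (2 * Q) ≤ N * R ^ 2 := by
    refine le_trans ?_ h4
    apply mul_le_mul_of_nonneg_left _ hd0
    exact mul_le_mul_of_nonneg_right h8 hQ0.le
  rw [div_le_div_iff₀ (by positivity) (by positivity)]
  linarith

/-- a coprimality with residues -/
theorem UXR_cop (M r z k : ℤ) (E X : ℤ) (hM : IsCoprime M r) (hz : IsCoprime M z) (hk : IsCoprime M k)
    (h : r * X ^ 2 + E * M = k * z ^ 5) :
    ∃ c : ℤ, IsCoprime c M ∧ M ∣ X ^ 2 - c ∧ (∀ E' X' : ℤ, r * X' ^ 2 + E' * M = k * z ^ 5 → M ∣ X' ^ 2 - c) := by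
  obtain ⟨t, s, hts⟩ := hM
  have hcs : IsCoprime s M := ⟨r, t, by linarith⟩
  have key : ∀ E' X' : ℤ, r * X' ^ 2 + E' * M = k * z ^ 5 → M ∣ X' ^ 2 - k * z ^ 5 * s := by
    intro E' X' h'
    refine ⟨t * X' ^ 2 - E' * s, ?_⟩
    have : X' ^ 2 = (t * M + s * r) * X' ^ 2 := by rw [hts]; ring
    calc X' ^ 2 - k * z ^ 5 * s = (t * M + s * r) * X' ^ 2 - k * z ^ 5 * s := by rw [← this]
      _ = (t * M + s * r) * X' ^ 2 - (r * X' ^ 2 + E' * M) * s := by rw [h']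
      _ = M * (t * X' ^ 2 - E' * s) := by ring
  exact ⟨k * z ^ 5 * s, (IsCoprime.mul_left (IsCoprime.mul_left hk.symm (hz.symm.pow_left)) hcs), key E X h, key⟩

theorem UXR (hUIV : UIV_stmt) : UXR_stmt := by
  intro N r z R hN hr hz hR F hF
  have hr0 : (0 : ℝ) < r := by exact_mod_cast hr
  have hz0 : (0 : ℝ) < z := by exact_mod_cast hz
  have hR0 : (0 : ℝ) < R := by exact_mod_cast hR
  have hr1 : (1 : ℝ) ≤ r := by exact_mod_cast hr
  have hz1 : (1 : ℝ) ≤ z := by exact_mod_cast hz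
  have hR1 : (1 : ℝ) ≤ R := by exact_mod_cast hR
  set Q : ℝ := (r : ℝ) * √r * ((z : ℝ) ^ 2 * √z) with hQ
  have hsr : 0 < √(r : ℝ) := Real.sqrt_pos.mpr hr0
  have hsz : 0 < √(z : ℝ) := Real.sqrt_pos.mpr hz0
  have hQ0 : 0 < Q := by rw [hQ]; positivity
  rcases F.eq_empty_or_nonempty with hFe | ⟨X₀, hX₀⟩
  · rw [hFe, card_empty]; push_cast; positivity
  set A : ℝ := 4 * (z : ℝ) ^ 5 / r with hA
  set B : ℝ := N * (R : ℝ) ^ 2 / (r : ℝ) ^ 2 with hB
  -- the bounds for X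
  have hbd : ∀ X ∈ F, A - B ≤ (X : ℝ) ^ 2 ∧ (X : ℝ) ^ 2 < A - B / 2 := by
    intro X hX
    obtain ⟨D, h1, h2, h3⟩ := hF X hX
    have h4 : (r : ℝ) ^ 2 * (X : ℝ) ^ 2 - D * (R : ℝ) ^ 2 = 4 * r * (z : ℝ) ^ 5 := by
      exact_mod_cast h3.eq
    have h5 : (X : ℝ) ^ 2 = A - (-(D : ℝ)) * R ^ 2 / r ^ 2 := by
      rw [hA]; field_simp; linarith
    have h6 : (-(D : ℝ)) * R ^ 2 / r ^ 2 ≤ B := by
      rw [hB]; gcongr
    have h7 : B / 2 < (-(D : ℝ)) * R ^ 2 / r ^ 2 := by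
      have : B / 2 = N / 2 * R ^ 2 / r ^ 2 := by rw [hB]; ring
      rw [this]; gcongr
    constructor <;> linarith
  have hAB : B < 2 * A := by
    have := hbd X₀ hX₀
    nlinarith [sq_nonneg (X₀ : ℝ)]
  have hlen := UXR_len N r z R hN hr1 hz1 hR1 hAB
  rw [← hA, ← hB, ← hQ] at hlen
  have huv : √(A - B) ≤ √(A - B / 2) := Real.sqrt_le_sqrt (by
    have : 0 < B := by rw [hB]; positivity
    linarith)
  have hu : ∀ X ∈ F, √(A - B) ≤ X ∧ (X : ℝ) ≤ √(A - B / 2) := by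
    intro X hX
    obtain ⟨h1, h2⟩ := hbd X hX
    constructor
    · calc √(A - B) ≤ √((X : ℝ) ^ 2) := Real.sqrt_le_sqrt h1
        _ = X := Real.sqrt_sq (Nat.cast_nonneg _)
    · exact Real.le_sqrt_of_sq_le h2.le
  -- the integer equation
  have hcopR : IsCoprime (R : ℤ) ((r : ℤ) * z) := by
    obtain ⟨D, h1, h2, h3⟩ := hF X₀ hX₀
    exact h3.cop
  have hcr : IsCoprime (R : ℤ) (r : ℤ) := IsCoprime.of_mul_right_left hcopR
  have hcz : IsCoprime (R : ℤ) (z : ℤ) := IsCoprime.of_mul_right_right hcopR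
  have hint : ∀ X ∈ F, ∃ E : ℤ, (r : ℤ) * (X : ℤ) ^ 2 + E * (R : ℤ) ^ 2 = 4 * (z : ℤ) ^ 5 := by
    intro X hX
    obtain ⟨D, h1, h2, h3⟩ := hF X hX
    obtain ⟨e, he⟩ := h3.dvd
    refine ⟨-e, ?_⟩
    have h4 := h3.eq
    rw [he] at h4
    have hrz : (r : ℤ) ≠ 0 := by exact_mod_cast (by omega : r ≠ 0)
    apply mul_left_cancel₀ hrz
    linarith
  rcases Nat.even_or_odd' R with ⟨R', hR' | hR'⟩
  · -- even
    have hR'0 : 0 < R' := by omega
    have hR'r : (R' : ℝ) = R / 2 := by rw [hR']; push_cast; ring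
    have hcr' : IsCoprime (R' : ℤ) (r : ℤ) := by
      apply IsCoprime.of_isCoprime_of_dvd_left hcr
      exact ⟨2, by rw [hR']; push_cast; ring⟩
    have hcz' : IsCoprime (R' : ℤ) (z : ℤ) := by
      apply IsCoprime.of_isCoprime_of_dvd_left hcz
      exact ⟨2, by rw [hR']; push_cast; ring⟩
    have h2r : IsCoprime (2 : ℤ) (r : ℤ) := by
      apply IsCoprime.of_isCoprime_of_dvd_left hcr
      exact ⟨R', by rw [hR']; push_cast; ring⟩
    have hev : ∀ X ∈ F, ∃ X' : ℕ, X = 2 * X' ∧ ∃ E : ℤ, (r : ℤ) * (X' : ℤ) ^ 2 + E * (R' : ℤ) ^ 2 = 1 * (z : ℤ) ^ 5 := by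
      intro X hX
      obtain ⟨E, hE⟩ := hint X hX
      have h2 : (2 : ℤ) ∣ (r : ℤ) * (X : ℤ) ^ 2 := by
        refine ⟨2 * (z : ℤ) ^ 5 - 2 * E * (R' : ℤ) ^ 2, ?_⟩
        rw [hR'] at hE
        push_cast at hE
        linarith
      have h3 : (2 : ℤ) ∣ (X : ℤ) ^ 2 := h2r.dvd_of_dvd_mul_left h2
      have h4 : (2 : ℤ) ∣ (X : ℤ) := Int.prime_two.dvd_of_dvd_pow h3
      have h5 : 2 ∣ X := by exact_mod_cast h4
      obtain ⟨X', hX'⟩ := h5
      refine ⟨X', hX', E, ?_⟩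
      rw [hR', hX'] at hE
      push_cast at hE
      linarith
    obtain ⟨X₁, -, E₁, hE₁⟩ := hev X₀ hX₀
    obtain ⟨c, hc1, -, hc2⟩ := UXR_cop ((R' : ℤ) ^ 2) r z 1 E₁ X₁ (hcr'.pow_left) (hcz'.pow_left)
      isCoprime_one_right hE₁
    have hfin := hUIV (R' ^ 2) c (by positivity) (by push_cast; exact hc1) (√(A - B) / 2) (√(A - B / 2) / 2)
      (by linarith) (F.image (fun X : ℕ => ((X / 2 : ℕ) : ℤ))) (by
        intro x hx
        rw [mem_image] at hx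
        obtain ⟨X, hX, rfl⟩ := hx
        obtain ⟨X', hX', E, hE⟩ := hev X hX
        obtain ⟨h1, h2⟩ := hu X hX
        have h3 : X / 2 = X' := by omega
        rw [h3]
        have h4 : (X : ℝ) = 2 * X' := by rw [hX']; push_cast; ring
        refine ⟨?_, ?_, ?_⟩
        · rw [h4] at h1
          push_cast
          linarith
        · rw [h4] at h2
          push_cast
          linarith
        · push_cast
          exact hc2 E X' hE)
    rw [card_image_of_injOn (by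
      intro X hX Y hY hXY
      obtain ⟨X', hX', -⟩ := hev X hX
      obtain ⟨Y', hY', -⟩ := hev Y hY
      simp only [Nat.cast_inj] at hXY
      omega)] at hfin
    refine hfin.trans ?_
    have h1 : ((R' ^ 2).divisors.card : ℝ) ≤ ((R ^ 2).divisors.card : ℝ) := by
      have : (R' ^ 2).divisors.card ≤ (R ^ 2).divisors.card := by
        apply card_le_card
        apply Nat.divisors_subset_of_dvd (by positivity)
        exact pow_dvd_pow_of_dvd ⟨2, by omega⟩ 2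
      exact_mod_cast this
    have h2 : (√(A - B / 2) / 2 - √(A - B) / 2) / ((R' ^ 2 : ℕ) : ℝ) ≤ N / Q := by
      push_cast
      rw [hR'r]
      have e1 : (√(A - B / 2) / 2 - √(A - B) / 2) / ((R : ℝ) / 2) ^ 2
          = 2 * ((√(A - B / 2) - √(A - B)) / (R : ℝ) ^ 2) := by
        field_simp
      rw [e1]
      have e2 : N / Q = 2 * (N / (2 * Q)) := by field_simp
      rw [e2]
      linarith
    have h3 : 0 ≤ (√(A - B / 2) / 2 - √(A - B) / 2) / ((R' ^ 2 : ℕ) : ℝ) :=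
      div_nonneg (by linarith) (by positivity)
    gcongr
  · -- odd
    have h2 : IsCoprime ((R : ℤ) ^ 2) (4 : ℤ) := by
      have h2' : IsCoprime (R : ℤ) (2 : ℤ) := ⟨1, -R', by rw [hR']; push_cast; ring⟩
      have := (h2'.pow (m := 2) (n := 2))
      norm_num at this
      exact this
    obtain ⟨E₀, hE₀⟩ := hint X₀ hX₀
    obtain ⟨c, hc1, -, hc2⟩ := UXR_cop ((R : ℤ) ^ 2) r z 4 E₀ X₀ (hcr.pow_left) (hcz.pow_left) h2 hE₀
    have hfin := hUIV (R ^ 2) c (by positivity) (by push_cast; exact hc1) (√(A - B)) (√(A - B / 2))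
      huv (F.image (fun X : ℕ => (X : ℤ))) (by
        intro x hx
        rw [mem_image] at hx
        obtain ⟨X, hX, rfl⟩ := hx
        obtain ⟨h1, h2⟩ := hu X hX
        obtain ⟨E, hE⟩ := hint X hX
        refine ⟨?_, ?_, ?_⟩
        · push_cast; exact h1
        · push_cast; exact h2
        · push_cast; exact hc2 E X hE)
    rw [card_image_of_injective _ Nat.cast_injective] at hfin
    refine hfin.trans ?_
    have h4 : (√(A - B / 2) - √(A - B)) / ((R ^ 2 : ℕ) : ℝ) ≤ N / Q := by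
      push_cast
      refine hlen.trans ?_
      apply div_le_div_of_nonneg_left hN.le hQ0
      linarith
    gcongr
end Pool.Agent.T5
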